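import Pool.Agent.Y398.KZ.AllN

/-!
Graphs of bounded degree and 1-Lipschitz maps to the Euclidean plane: the optimal additive error
is of the exact order log log R.
-/

namespace Pool.Agent.Results.MP_8ede36_co.BoundedDegreeLogLog

/-- Construction: a connected graph of bounded degree with a 1-Lipschitz map to the plane whose
distance exceeds the Euclidean one by a bounded amount on a set with coarsely dense image, and
by `O(log log)` everywhere.  Lower bound: for every connected graph with a 1-Lipschitz map `f` to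
the plane, if in the disc of radius `R ≥ 3` the degrees are at most `Δ`, the image is `E`-dense
and the distance is at most the Euclidean one plus `E`, then `c log log R ≤ E log Δ`. -/
theorem result :
    (∃ (V : Type) (G : SimpleGraph V) (f : V → EuclideanSpace ℝ (Fin 2)) (S : Set V) (C : ℝ)
        (Δ : ℕ), 0 < C ∧ G.Connected ∧
      (∀ v, (G.neighborSet v).Finite ∧ (G.neighborSet v).ncard ≤ Δ) ∧
      (∀ x y, ‖f x - f y‖ ≤ (G.dist x y : ℝ)) ∧
      (∀ z : EuclideanSpace ℝ (Fin 2), ∃ x ∈ S, ‖f x - z‖ < C) ∧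
      (∀ x ∈ S, ∀ y ∈ S, (G.dist x y : ℝ) ≤ ‖f x - f y‖ + C) ∧
      ∀ x y, (G.dist x y : ℝ) ≤
        ‖f x - f y‖ + C * (1 + Real.log (1 + Real.log (1 + ‖f x‖ + ‖f y‖)))) ∧
    ∃ c : ℝ, 0 < c ∧ ∀ (V : Type) (G : SimpleGraph V) (f : V → EuclideanSpace ℝ (Fin 2))
      (Δ : ℕ) (E R : ℝ), G.Connected → (∀ x y, ‖f x - f y‖ ≤ (G.dist x y : ℝ)) →
      2 ≤ Δ → 1 ≤ E → 3 ≤ R →
      (∀ v, ‖f v‖ ≤ R → (G.neighborSet v).Finite ∧ (G.neighborSet v).ncard ≤ Δ) →
      (∀ z : EuclideanSpace ℝ (Fin 2), ‖z‖ ≤ R → ∃ x, ‖f x - z‖ ≤ E) →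
      (∀ x y, ‖f x‖ ≤ R → ‖f y‖ ≤ R → (G.dist x y : ℝ) ≤ ‖f x - f y‖ + E) →
      c * Real.log (Real.log R) ≤ E * Real.log Δ :=
  ⟨Pool.Agent.Y398.KZ.upper_E2, Pool.Agent.Y398.KZ.lower_E2 Pool.Agent.Y398.KZN.all_LOWER⟩

end Pool.Agent.Results.MP_8ede36_co.BoundedDegreeLogLog
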