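import Pool.Agent.Y767.GE.Geo

open Set

namespace Pool.Agent.Results.MP_8ede36_co.ProperGeodesicSpaces

universe u

/-- The graph on a set `V` of points of a metric space in which two different points are joined if
their distance is at most one. -/
def nearGraph {X : Type u} [MetricSpace X] (V : Set X) : SimpleGraph V where
  Adj v w := v ≠ w ∧ dist (v : X) w ≤ 1
  symm := ⟨fun v w h => ⟨h.1.symm, by rw [dist_comm]; exact h.2⟩⟩
  loopless := ⟨fun v h => h.1 rfl⟩

/-- `X` is, up to the additive constants `1 + ε`, a connected locally finite graph: there is an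
`ε`-dense set `V` of points of `X`, finitely many in every ball, for which the graph on `V` joining
the points at distance at most one is connected, has finite degrees, and has a path metric `d_G`
with `d ≤ d_G < d + 1 + ε`. -/
def NearlyLocallyFiniteGraph (X : Type u) [MetricSpace X] (ε : ℝ) : Prop :=
  ∃ V : Set X, (∀ z : X, ∃ v ∈ V, dist z v < ε) ∧
    (∀ (x : X) (R : ℝ), {v ∈ V | dist x v ≤ R}.Finite) ∧
    (nearGraph V).Connected ∧ (∀ v, ((nearGraph V).neighborSet v).Finite) ∧
    ∀ v w : V, dist (v : X) w ≤ (nearGraph V).dist v w ∧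
      ((nearGraph V).dist v w : ℝ) < dist (v : X) w + 1 + ε

theorem nearly {X : Type u} [MetricSpace X] [ProperSpace X] [Nonempty X]
    (hgeo : ∀ x y : X, ∀ t : ℝ, 0 ≤ t → t ≤ dist x y → ∃ z, dist x z = t ∧ dist z y = dist x y - t)
    {ε : ℝ} (hε : 0 < ε) : NearlyLocallyFiniteGraph X ε := by
  obtain ⟨V, h1, h2, h3, h4⟩ := Pool.Agent.Y767.GE.main hgeo hε
  refine ⟨V, h2, fun x R => h1 R x, h3, ?_, h4⟩
  intro v
  have h5 : (nearGraph V).neighborSet v ⊆ (fun w : V => (w : X)) ⁻¹' {w ∈ V | dist (v : X) w ≤ 1} := by
    intro w hw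
    exact ⟨w.2, ((SimpleGraph.mem_neighborSet _ _ _).1 hw).2⟩
  exact ((h1 1 (v : X)).preimage Subtype.val_injective.injOn).subset h5

/-- **Every proper geodesic metric space is roughly isometric, with multiplicative constant one, to
a connected locally finite graph.** First part: `X` is any nonempty metric space with compact closed
balls in which for any two points `x`, `y` and any `t` between `0` and `d(x, y)` some point `z` has
`d(x, z) = t` and `d(z, y) = d(x, y) - t`. Second part: this holds in particular for every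
finite-dimensional normed space, for instance for the Euclidean plane. -/
theorem result :
    (∀ (X : Type u) [MetricSpace X] [ProperSpace X] [Nonempty X],
      (∀ x y : X, ∀ t : ℝ, 0 ≤ t → t ≤ dist x y → ∃ z, dist x z = t ∧ dist z y = dist x y - t) →
      ∀ ε : ℝ, 0 < ε → NearlyLocallyFiniteGraph X ε) ∧
    ∀ (E : Type u) [NormedAddCommGroup E] [NormedSpace ℝ E] [FiniteDimensional ℝ E],
      ∀ ε : ℝ, 0 < ε → NearlyLocallyFiniteGraph E ε := by
  refine ⟨fun X _ _ _ hgeo ε hε => nearly hgeo hε, fun E _ _ _ ε hε => ?_⟩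
  have : ProperSpace E := FiniteDimensional.proper ℝ E
  have : Nonempty E := ⟨0⟩
  refine nearly ?_ hε
  intro x y t h0 ht
  rcases eq_or_ne (dist x y) 0 with hd | hd
  · have ht0 : t = 0 := le_antisymm (ht.trans hd.le) h0
    exact ⟨x, by rw [dist_self, ht0], by rw [ht0, sub_zero]⟩
  · have hdp : 0 < dist x y := lt_of_le_of_ne dist_nonneg (Ne.symm hd)
    have hn : ‖y - x‖ = dist x y := by rw [dist_comm, dist_eq_norm]
    refine ⟨x + (t / dist x y) • (y - x), ?_, ?_⟩
    · rw [dist_eq_norm]
      have h1 : x - (x + (t / dist x y) • (y - x)) = -((t / dist x y) • (y - x)) := by abel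
      rw [h1, norm_neg, norm_smul, hn, Real.norm_eq_abs, abs_of_nonneg (by positivity)]
      field_simp
    · rw [dist_eq_norm]
      have h1 : x + (t / dist x y) • (y - x) - y = -((1 - t / dist x y) • (y - x)) := by
        rw [sub_smul, one_smul]; abel
      have h2 : 0 ≤ 1 - t / dist x y := by
        rw [sub_nonneg, div_le_one hdp]; exact ht
      rw [h1, norm_neg, norm_smul, hn, Real.norm_eq_abs, abs_of_nonneg h2]
      field_simp

end Pool.Agent.Results.MP_8ede36_co.ProperGeodesicSpaces
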