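import Pool.Agent.Y398.KZ.Res

/-!
Graphs roughly isometric to the Euclidean plane with multiplicative constant one, with a
1-Lipschitz map, and with degrees which grow slower than any given power of the logarithm.
-/

namespace Pool.Agent.Results.MP_8ede36_co.SubLogDegrees

/-- For every `ε > 0` there is a connected locally finite graph with a map `f` to the Euclidean
plane with coarsely dense image and `|f x - f y| ≤ d(x, y) < |f x - f y| + C`, such that every
vertex `v` has degree at most `C (1 + log (1 + |f v|)) ^ ε`. -/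
theorem result (ε : ℝ) (hε : 0 < ε) :
    ∃ (V : Type) (G : SimpleGraph V) (f : V → EuclideanSpace ℝ (Fin 2)) (C : ℝ), 0 < C ∧
      G.Connected ∧
      (∀ x y, ‖f x - f y‖ ≤ (G.dist x y : ℝ)) ∧
      (∀ x y, (G.dist x y : ℝ) < ‖f x - f y‖ + C) ∧
      (∀ z : EuclideanSpace ℝ (Fin 2), ∃ x, ‖f x - z‖ < C) ∧
      ∀ v, (G.neighborSet v).Finite ∧
        ((G.neighborSet v).ncard : ℝ) ≤ C * (1 + Real.log (1 + ‖f v‖)) ^ ε :=
  Pool.Agent.Y398.KZ.main_T2 ε hε

end Pool.Agent.Results.MP_8ede36_co.SubLogDegrees
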